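import Pool.Agent.Helper63.EI.Frame

/-!
# Cubic fourfolds with an Eckardt point
-/

set_option autoImplicit false
set_option linter.unusedSimpArgs false

namespace Pool.Agent.Helper63.EI

open Pool.Agent.Y95.Q Pool.Agent.Y95.Q.H4 Pool.Agent.Helper36K9.CF Finset

variable {X : CubicFourfold} {H : H4 X}

/-- classes of planes which intersect as the planes over the lines `E₁, …, E₆` and `H - E₁ - E₂` of a
cubic surface -/
structure Eck (H : H4 X) (p : Fin 6 → Fin 23 → ℤ) (q : Fin 23 → ℤ) : Prop where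
  pl : ∀ i, H.IsPl (p i)
  ql : H.IsPl q
  pp : ∀ i j, i ≠ j → H.ip (p i) (p j) = 1
  q0 : H.ip q (p 0) = -1
  q1 : H.ip q (p 1) = -1
  q2 : ∀ i : Fin 6, 2 ≤ i.val → H.ip q (p i) = 1

/-- all products -/
theorem Eck.row {p : Fin 6 → Fin 23 → ℤ} {q : Fin 23 → ℤ} (E : Eck H p q) (i : Fin 6) :
    H.ip (p i) (p 0) + H.ip (p i) (p 1) + H.ip (p i) (p 2) + H.ip (p i) (p 3) + H.ip (p i) (p 4) +
      H.ip (p i) (p 5) = 8 := by
  have hs := fun i => (E.pl i).2.2
  fin_cases i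
  · show H.ip (p 0) (p 0) + H.ip (p 0) (p 1) + H.ip (p 0) (p 2) + H.ip (p 0) (p 3) + H.ip (p 0) (p 4) +
      H.ip (p 0) (p 5) = 8
    rw [hs, E.pp 0 1 (by decide), E.pp 0 2 (by decide), E.pp 0 3 (by decide), E.pp 0 4 (by decide),
      E.pp 0 5 (by decide)]
    norm_num
  · show H.ip (p 1) (p 0) + H.ip (p 1) (p 1) + H.ip (p 1) (p 2) + H.ip (p 1) (p 3) + H.ip (p 1) (p 4) +
      H.ip (p 1) (p 5) = 8
    rw [hs, E.pp 1 0 (by decide), E.pp 1 2 (by decide), E.pp 1 3 (by decide), E.pp 1 4 (by decide),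
      E.pp 1 5 (by decide)]
    norm_num
  · show H.ip (p 2) (p 0) + H.ip (p 2) (p 1) + H.ip (p 2) (p 2) + H.ip (p 2) (p 3) + H.ip (p 2) (p 4) +
      H.ip (p 2) (p 5) = 8
    rw [hs, E.pp 2 1 (by decide), E.pp 2 0 (by decide), E.pp 2 3 (by decide), E.pp 2 4 (by decide),
      E.pp 2 5 (by decide)]
    norm_num
  · show H.ip (p 3) (p 0) + H.ip (p 3) (p 1) + H.ip (p 3) (p 2) + H.ip (p 3) (p 3) + H.ip (p 3) (p 4) +
      H.ip (p 3) (p 5) = 8
    rw [hs, E.pp 3 1 (by decide), E.pp 3 2 (by decide), E.pp 3 0 (by decide), E.pp 3 4 (by decide),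
      E.pp 3 5 (by decide)]
    norm_num
  · show H.ip (p 4) (p 0) + H.ip (p 4) (p 1) + H.ip (p 4) (p 2) + H.ip (p 4) (p 3) + H.ip (p 4) (p 4) +
      H.ip (p 4) (p 5) = 8
    rw [hs, E.pp 4 1 (by decide), E.pp 4 2 (by decide), E.pp 4 3 (by decide), E.pp 4 0 (by decide),
      E.pp 4 5 (by decide)]
    norm_num
  · show H.ip (p 5) (p 0) + H.ip (p 5) (p 1) + H.ip (p 5) (p 2) + H.ip (p 5) (p 3) + H.ip (p 5) (p 4) +
      H.ip (p 5) (p 5) = 8
    rw [hs, E.pp 5 1 (by decide), E.pp 5 2 (by decide), E.pp 5 3 (by decide), E.pp 5 4 (by decide),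
      E.pp 5 0 (by decide)]
    norm_num

theorem Eck.qp (hH : H.IsCohomology) {p : Fin 6 → Fin 23 → ℤ} {q : Fin 23 → ℤ} (E : Eck H p q) (i : Fin 6) :
    H.ip (p i) q + H.ip (p i) (p 0) + H.ip (p i) (p 1) = 3 := by
  have hs := fun i => (E.pl i).2.2
  rw [hH.comm (p i) q]
  fin_cases i
  · show H.ip q (p 0) + H.ip (p 0) (p 0) + H.ip (p 0) (p 1) = 3
    rw [E.q0, hs, E.pp 0 1 (by decide)]; norm_num
  · show H.ip q (p 1) + H.ip (p 1) (p 0) + H.ip (p 1) (p 1) = 3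
    rw [E.q1, hs, E.pp 1 0 (by decide)]; norm_num
  · show H.ip q (p 2) + H.ip (p 2) (p 0) + H.ip (p 2) (p 1) = 3
    rw [E.q2 2 (by decide), E.pp 2 0 (by decide), E.pp 2 1 (by decide)]; norm_num
  · show H.ip q (p 3) + H.ip (p 3) (p 0) + H.ip (p 3) (p 1) = 3
    rw [E.q2 3 (by decide), E.pp 3 0 (by decide), E.pp 3 1 (by decide)]; norm_num
  · show H.ip q (p 4) + H.ip (p 4) (p 0) + H.ip (p 4) (p 1) = 3
    rw [E.q2 4 (by decide), E.pp 4 0 (by decide), E.pp 4 1 (by decide)]; norm_num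
  · show H.ip q (p 5) + H.ip (p 5) (p 0) + H.ip (p 5) (p 1) = 3
    rw [E.q2 5 (by decide), E.pp 5 0 (by decide), E.pp 5 1 (by decide)]; norm_num

/-- `h` in terms of the planes -/
theorem Eck.rel (hH : H.IsCohomology) {p : Fin 6 → Fin 23 → ℤ} {q : Fin 23 → ℤ} (E : Eck H p q) :
    H.h = (3 : ℤ) • (q + p 0 + p 1) - (p 0 + p 1 + p 2 + p 3 + p 4 + p 5) := by
  obtain ⟨u, hu⟩ : ∃ u, u = H.h - ((3 : ℤ) • (q + p 0 + p 1) - (p 0 + p 1 + p 2 + p 3 + p 4 + p 5)) := ⟨_, rfl⟩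
  have hiu : ∀ x, H.ip x u = H.ip x H.h - (3 * (H.ip x q + H.ip x (p 0) + H.ip x (p 1)) -
      (H.ip x (p 0) + H.ip x (p 1) + H.ip x (p 2) + H.ip x (p 3) + H.ip x (p 4) + H.ip x (p 5))) := by
    intro x
    rw [hu]
    simp only [ip_sub_right, ip_smul_right, ip_add_right]
  have hpu : ∀ i, H.ip (p i) u = 0 := by
    intro i
    rw [hiu, E.row, E.qp hH, (E.pl i).2.1]
    norm_num
  have hqu : H.ip q u = 0 := by
    rw [hiu, E.ql.2.1, E.ql.2.2, E.q0, E.q1, E.q2 2 (by decide), E.q2 3 (by decide), E.q2 4 (by decide),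
      E.q2 5 (by decide)]
    norm_num
  have hhu : H.ip H.h u = 0 := by
    rw [hiu, hH.h_self, hH.comm H.h q, hH.comm H.h (p 0), hH.comm H.h (p 1), hH.comm H.h (p 2),
      hH.comm H.h (p 3), hH.comm H.h (p 4), hH.comm H.h (p 5), E.ql.2.1, (E.pl 0).2.1, (E.pl 1).2.1,
      (E.pl 2).2.1, (E.pl 3).2.1, (E.pl 4).2.1, (E.pl 5).2.1]
    norm_num
  have hH' : H.IsHodge u := by
    rw [hu]
    exact H.isHodge_sub hH.h_hodge (H.isHodge_sub (H.isHodge_smul _ (H.isHodge_add (H.isHodge_add E.ql.1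
      (E.pl 0).1) (E.pl 1).1)) (H.isHodge_add (H.isHodge_add (H.isHodge_add (H.isHodge_add (H.isHodge_add
      (E.pl 0).1 (E.pl 1).1) (E.pl 2).1) (E.pl 3).1) (E.pl 4).1) (E.pl 5).1))
  have huu : H.ip u u = 0 := by
    rw [hiu, hH.comm u H.h, hH.comm u q, hH.comm u (p 0), hH.comm u (p 1), hH.comm u (p 2), hH.comm u (p 3),
      hH.comm u (p 4), hH.comm u (p 5), hhu, hqu, hpu, hpu, hpu, hpu, hpu, hpu]
    norm_num
  have h0 : u = 0 := by
    by_contra hne
    have := hH.pos u hH' hne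
    omega
  rw [h0] at hu
  exact (sub_eq_zero.1 hu.symm)

/-- orthogonal to all planes of the cone -/
def Perp (H : H4 X) (p : Fin 6 → Fin 23 → ℤ) (q k : Fin 23 → ℤ) : Prop :=
  (∀ i, H.ip (p i) k = 0) ∧ H.ip q k = 0

/-- the group spanned by the planes of the cone -/
def Sp (p : Fin 6 → Fin 23 → ℤ) (q : Fin 23 → ℤ) : Submodule ℤ (Fin 23 → ℤ) :=
  Submodule.span ℤ (insert q (Set.range p))

theorem Perp.h (hH : H.IsCohomology) {p : Fin 6 → Fin 23 → ℤ} {q k : Fin 23 → ℤ} (E : Eck H p q)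
    (hk : Perp H p q k) : H.ip H.h k = 0 := by
  rw [E.rel hH]
  simp only [ip_sub_left, ip_smul_left, ip_add_left, hk.1, hk.2]
  norm_num

theorem Perp.sp {p : Fin 6 → Fin 23 → ℤ} {q k a : Fin 23 → ℤ} (hk : Perp H p q k) (ha : a ∈ Sp p q) :
    H.ip a k = 0 := by
  unfold Sp at ha
  induction ha using Submodule.span_induction with
  | mem x hx =>
    rcases hx with rfl | ⟨i, rfl⟩
    · exact hk.2
    · exact hk.1 i
  | zero => rw [ip_zero_left]
  | add x y _ _ hx hy => rw [ip_add_left, hx, hy, add_zero]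
  | smul n x _ hx => rw [ip_smul_left, hx, mul_zero]

theorem Sp.hodge {p : Fin 6 → Fin 23 → ℤ} {q a : Fin 23 → ℤ} (E : Eck H p q) (ha : a ∈ Sp p q) :
    H.IsHodge a := by
  unfold Sp at ha
  induction ha using Submodule.span_induction with
  | mem x hx =>
    rcases hx with rfl | ⟨i, rfl⟩
    · exact E.ql.1
    · exact (E.pl i).1
  | zero => exact H.isHodge_zero
  | add x y _ _ hx hy => exact H.isHodge_add hx hy
  | smul n x _ hx => exact H.isHodge_smul _ hx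

/-- **The splitting.** -/
theorem Eck.split (hH : H.IsCohomology) {p : Fin 6 → Fin 23 → ℤ} {q : Fin 23 → ℤ} (E : Eck H p q)
    (hE : H.AllEven) {T : Fin 23 → ℤ} (hT : H.IsHodge T) :
    ∃ a k, T = a + k ∧ a ∈ Sp p q ∧ H.IsHodge k ∧ Perp H p q k ∧ 4 ∣ H.disc a := by
  have hpar : ∀ P, H.IsPl P → ∃ s, H.ip T P = H.ip T H.h - 2 * s := by
    intro P hP
    obtain ⟨s, hs⟩ := hE P hP T hT
    rw [ip_sub_right] at hs
    exact ⟨s, by omega⟩
  obtain ⟨s0, h0⟩ := hpar _ (E.pl 0)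
  obtain ⟨s1, h1⟩ := hpar _ (E.pl 1)
  obtain ⟨s2, h2⟩ := hpar _ (E.pl 2)
  obtain ⟨s3, h3⟩ := hpar _ (E.pl 3)
  obtain ⟨s4, h4⟩ := hpar _ (E.pl 4)
  obtain ⟨s5, h5⟩ := hpar _ (E.pl 5)
  obtain ⟨r, hr⟩ := hpar _ E.ql
  obtain ⟨m, hm⟩ : ∃ m, m = H.ip T H.h := ⟨_, rfl⟩
  rw [← hm] at h0 h1 h2 h3 h4 h5 hr
  have hm2 : m = 3 * (r + s0 + s1) - (s0 + s1 + s2 + s3 + s4 + s5) := by
    have h6 : H.ip T H.h = 3 * (H.ip T q + H.ip T (p 0) + H.ip T (p 1)) - (H.ip T (p 0) + H.ip T (p 1) +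
        H.ip T (p 2) + H.ip T (p 3) + H.ip T (p 4) + H.ip T (p 5)) := by
      conv_lhs => rw [E.rel hH]
      simp only [ip_sub_right, ip_smul_right, ip_add_right]
    rw [h0, h1, h2, h3, h4, h5, hr, ← hm] at h6
    linarith
  obtain ⟨σ, hσ⟩ : ∃ σ, σ = r + s0 + s1 := ⟨_, rfl⟩
  obtain ⟨a, ha⟩ : ∃ a, a = σ • (q + p 0 + p 1) - (s0 • p 0 + s1 • p 1 + s2 • p 2 + s3 • p 3 + s4 • p 4 +
      s5 • p 5) := ⟨_, rfl⟩
  have hmem : ∀ i, p i ∈ Sp p q := fun i => Submodule.subset_span (Or.inr ⟨i, rfl⟩)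
  have hqm : q ∈ Sp p q := Submodule.subset_span (Or.inl rfl)
  have haS : a ∈ Sp p q := by
    rw [ha]
    refine Submodule.sub_mem _ (Submodule.smul_mem _ _ (Submodule.add_mem _ (Submodule.add_mem _ hqm
      (hmem 0)) (hmem 1))) ?_
    exact Submodule.add_mem _ (Submodule.add_mem _ (Submodule.add_mem _ (Submodule.add_mem _
      (Submodule.add_mem _ (Submodule.smul_mem _ _ (hmem 0)) (Submodule.smul_mem _ _ (hmem 1)))
      (Submodule.smul_mem _ _ (hmem 2))) (Submodule.smul_mem _ _ (hmem 3))) (Submodule.smul_mem _ _ (hmem 4)))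
      (Submodule.smul_mem _ _ (hmem 5))
  have hia : ∀ x, H.ip x a = σ * (H.ip x q + H.ip x (p 0) + H.ip x (p 1)) - (s0 * H.ip x (p 0) +
      s1 * H.ip x (p 1) + s2 * H.ip x (p 2) + s3 * H.ip x (p 3) + s4 * H.ip x (p 4) + s5 * H.ip x (p 5)) := by
    intro x
    rw [ha]
    simp only [ip_sub_right, ip_smul_right, ip_add_right]
  have hs := fun i => (E.pl i).2.2
  have hkP : Perp H p q (T - a) := by
    have c0 := hH.comm T (p 0)
    have c1 := hH.comm T (p 1)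
    have c2 := hH.comm T (p 2)
    have c3 := hH.comm T (p 3)
    have c4 := hH.comm T (p 4)
    have c5 := hH.comm T (p 5)
    have cq := hH.comm T q
    refine ⟨fun i => ?_, ?_⟩
    · rw [ip_sub_right, hia, E.qp hH]
      fin_cases i
      · show H.ip (p 0) T - (σ * 3 - (s0 * H.ip (p 0) (p 0) + s1 * H.ip (p 0) (p 1) + s2 * H.ip (p 0) (p 2) +
          s3 * H.ip (p 0) (p 3) + s4 * H.ip (p 0) (p 4) + s5 * H.ip (p 0) (p 5))) = 0
        rw [hs, E.pp 0 1 (by decide), E.pp 0 2 (by decide), E.pp 0 3 (by decide), E.pp 0 4 (by decide),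
          E.pp 0 5 (by decide), ← c0, h0, hm2, hσ]
        ring
      · show H.ip (p 1) T - (σ * 3 - (s0 * H.ip (p 1) (p 0) + s1 * H.ip (p 1) (p 1) + s2 * H.ip (p 1) (p 2) +
          s3 * H.ip (p 1) (p 3) + s4 * H.ip (p 1) (p 4) + s5 * H.ip (p 1) (p 5))) = 0
        rw [hs, E.pp 1 0 (by decide), E.pp 1 2 (by decide), E.pp 1 3 (by decide), E.pp 1 4 (by decide),
          E.pp 1 5 (by decide), ← c1, h1, hm2, hσ]
        ring
      · show H.ip (p 2) T - (σ * 3 - (s0 * H.ip (p 2) (p 0) + s1 * H.ip (p 2) (p 1) + s2 * H.ip (p 2) (p 2) +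
          s3 * H.ip (p 2) (p 3) + s4 * H.ip (p 2) (p 4) + s5 * H.ip (p 2) (p 5))) = 0
        rw [hs, E.pp 2 1 (by decide), E.pp 2 0 (by decide), E.pp 2 3 (by decide), E.pp 2 4 (by decide),
          E.pp 2 5 (by decide), ← c2, h2, hm2, hσ]
        ring
      · show H.ip (p 3) T - (σ * 3 - (s0 * H.ip (p 3) (p 0) + s1 * H.ip (p 3) (p 1) + s2 * H.ip (p 3) (p 2) +
          s3 * H.ip (p 3) (p 3) + s4 * H.ip (p 3) (p 4) + s5 * H.ip (p 3) (p 5))) = 0
        rw [hs, E.pp 3 1 (by decide), E.pp 3 2 (by decide), E.pp 3 0 (by decide), E.pp 3 4 (by decide),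
          E.pp 3 5 (by decide), ← c3, h3, hm2, hσ]
        ring
      · show H.ip (p 4) T - (σ * 3 - (s0 * H.ip (p 4) (p 0) + s1 * H.ip (p 4) (p 1) + s2 * H.ip (p 4) (p 2) +
          s3 * H.ip (p 4) (p 3) + s4 * H.ip (p 4) (p 4) + s5 * H.ip (p 4) (p 5))) = 0
        rw [hs, E.pp 4 1 (by decide), E.pp 4 2 (by decide), E.pp 4 3 (by decide), E.pp 4 0 (by decide),
          E.pp 4 5 (by decide), ← c4, h4, hm2, hσ]
        ring
      · show H.ip (p 5) T - (σ * 3 - (s0 * H.ip (p 5) (p 0) + s1 * H.ip (p 5) (p 1) + s2 * H.ip (p 5) (p 2) +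
          s3 * H.ip (p 5) (p 3) + s4 * H.ip (p 5) (p 4) + s5 * H.ip (p 5) (p 5))) = 0
        rw [hs, E.pp 5 1 (by decide), E.pp 5 2 (by decide), E.pp 5 3 (by decide), E.pp 5 4 (by decide),
          E.pp 5 0 (by decide), ← c5, h5, hm2, hσ]
        ring
    · rw [ip_sub_right, hia, E.ql.2.2, E.q0, E.q1, E.q2 2 (by decide), E.q2 3 (by decide), E.q2 4 (by decide),
        E.q2 5 (by decide), ← cq, hr, hm2, hσ]
      ring
  have hTH : H.IsHodge (T - a) := H.isHodge_sub hT (Sp.hodge E haS)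
  refine ⟨a, T - a, by abel, haS, hTH, hkP, ?_⟩
  have e1 : ∀ x, H.ip x (T - a) = 0 → H.ip a x = H.ip T x := by
    intro x hx
    rw [ip_sub_right] at hx
    rw [hH.comm a x, hH.comm T x]
    linarith
  have e2 : H.ip H.h a = m := by
    rw [hm, hH.comm H.h a]
    exact e1 _ (hkP.h hH E)
  have e3 : H.ip a a = m ^ 2 - 2 * (σ ^ 2 - (s0 ^ 2 + s1 ^ 2 + s2 ^ 2 + s3 ^ 2 + s4 ^ 2 + s5 ^ 2)) := by
    rw [hia, e1 _ hkP.2, e1 _ (hkP.1 0), e1 _ (hkP.1 1), e1 _ (hkP.1 2), e1 _ (hkP.1 3), e1 _ (hkP.1 4),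
      e1 _ (hkP.1 5), h0, h1, h2, h3, h4, h5, hr]
    have e4 : r = σ - s0 - s1 := by omega
    rw [e4]
    have e5 : m = 3 * σ - (s0 + s1 + s2 + s3 + s4 + s5) := by rw [hm2, hσ]
    rw [e5]
    ring
  have e6 : H.disc a = 2 * m ^ 2 - 6 * (σ ^ 2 - (s0 ^ 2 + s1 ^ 2 + s2 ^ 2 + s3 ^ 2 + s4 ^ 2 + s5 ^ 2)) := by
    rw [disc, e2, e3]
    ring
  obtain ⟨y, hy⟩ := sq_par m
  obtain ⟨z, hz⟩ := sq_par σ
  obtain ⟨y0, k0⟩ := sq_par s0
  obtain ⟨y1, k1⟩ := sq_par s1
  obtain ⟨y2, k2⟩ := sq_par s2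
  obtain ⟨y3, k3⟩ := sq_par s3
  obtain ⟨y4, k4⟩ := sq_par s4
  obtain ⟨y5, k5⟩ := sq_par s5
  rw [e6]
  omega

/-- all discriminants on the span of the planes are divisible by four -/
theorem Eck.four_span (hH : H.IsCohomology) {p : Fin 6 → Fin 23 → ℤ} {q : Fin 23 → ℤ} (E : Eck H p q)
    (hE : H.AllEven) {a : Fin 23 → ℤ} (ha : a ∈ Sp p q) : 4 ∣ H.disc a := by
  obtain ⟨b, k, h1, hb, hk, hP, h4⟩ := E.split hH hE (Sp.hodge E ha)
  have hkS : k ∈ Sp p q := by
    have h2 : k = a - b := by rw [h1]; abel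
    rw [h2]
    exact Submodule.sub_mem _ ha hb
  have h3 : H.ip k k = 0 := hP.sp hkS
  have h5 : k = 0 := by
    by_contra hne
    have := hH.pos k hk hne
    omega
  rw [h1, h5, add_zero]
  exact h4

theorem Eck.even_span (hH : H.IsCohomology) {p : Fin 6 → Fin 23 → ℤ} {q : Fin 23 → ℤ} (E : Eck H p q)
    (hE : H.AllEven) {a b : Fin 23 → ℤ} (ha : a ∈ Sp p q) (hb : b ∈ Sp p q) : Even (bb H a b) := by
  have h1 := E.four_span hH hE ha
  have h2 := E.four_span hH hE hb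
  have h3 := E.four_span hH hE (Submodule.add_mem _ ha hb)
  rw [disc_add hH] at h3
  rw [Int.even_iff]
  omega

/-- the discriminant of a sum -/
theorem Perp.disc (hH : H.IsCohomology) {p : Fin 6 → Fin 23 → ℤ} {q k a : Fin 23 → ℤ} (E : Eck H p q)
    (hk : Perp H p q k) (ha : a ∈ Sp p q) : H.disc (a + k) = H.disc a + 3 * H.ip k k := by
  rw [disc_add hH, bb, hk.sp ha, hk.h hH E, H4.disc, H4.disc, hk.h hH E]
  ring

theorem Perp.even (hH : H.IsCohomology) {p : Fin 6 → Fin 23 → ℤ} {q k : Fin 23 → ℤ} (E : Eck H p q)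
    (hk : Perp H p q k) : Even (H.ip k k) := by
  have h1 := hH.char k
  rwa [hH.comm k H.h, hk.h hH E, sub_zero] at h1

theorem Eck.isD4 (hH : H.IsCohomology) {p : Fin 6 → Fin 23 → ℤ} {q : Fin 23 → ℤ} (E : Eck H p q) :
    IsD4 H ![p 1 - p 2, p 2 - p 3, p 3 - p 4, q - p 2] := by
  have m : CartanMatrix.D 4 = !![2, -1, 0, 0; -1, 2, -1, -1; 0, -1, 2, 0; 0, -1, 0, 2] := by
    decide +kernel
  have hs := fun i => (E.pl i).2.2
  have hh := fun i => (E.pl i).2.1
  have c1 := hH.comm (p 1) q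
  have c2 := hH.comm (p 2) q
  have c3 := hH.comm (p 3) q
  have c4 := hH.comm (p 4) q
  have a1 := E.q1
  have a2 := E.q2 2 (by decide)
  have a3 := E.q2 3 (by decide)
  have a4 := E.q2 4 (by decide)
  have b12 := E.pp 1 2 (by decide)
  have b13 := E.pp 1 3 (by decide)
  have b14 := E.pp 1 4 (by decide)
  have b23 := E.pp 2 3 (by decide)
  have b24 := E.pp 2 4 (by decide)
  have b34 := E.pp 3 4 (by decide)
  have b21 := E.pp 2 1 (by decide)
  have b31 := E.pp 3 1 (by decide)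
  have b41 := E.pp 4 1 (by decide)
  have b32 := E.pp 3 2 (by decide)
  have b42 := E.pp 4 2 (by decide)
  have b43 := E.pp 4 3 (by decide)
  refine ⟨fun i => ?_, fun i j => ?_⟩
  · fin_cases i
    · exact ⟨H.isHodge_sub (E.pl 1).1 (E.pl 2).1, by
        show H.ip (p 1 - p 2) H.h = 0
        rw [ip_sub_left, hh, hh, sub_self]⟩
    · exact ⟨H.isHodge_sub (E.pl 2).1 (E.pl 3).1, by
        show H.ip (p 2 - p 3) H.h = 0
        rw [ip_sub_left, hh, hh, sub_self]⟩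
    · exact ⟨H.isHodge_sub (E.pl 3).1 (E.pl 4).1, by
        show H.ip (p 3 - p 4) H.h = 0
        rw [ip_sub_left, hh, hh, sub_self]⟩
    · exact ⟨H.isHodge_sub E.ql.1 (E.pl 2).1, by
        show H.ip (q - p 2) H.h = 0
        rw [ip_sub_left, hh, E.ql.2.1, sub_self]⟩
  · rw [m]
    fin_cases i <;> fin_cases j <;>
      simp [ip_sub_left, ip_sub_right, hs, E.ql.2.2, c1, c2, c3, c4, a1, a2, a3, a4, b12, b13, b14, b23, b24,
        b34, b21, b31, b41, b32, b42, b43]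

/-- **The criterion.** -/
theorem Eck.k3 (hH : H.IsCohomology) {p : Fin 6 → Fin 23 → ℤ} {q : Fin 23 → ℤ} (E : Eck H p q) :
    H.HasK3 ↔ ¬ H.AllEven ∨ ∃ k, H.IsHodge k ∧ Perp H p q k ∧ ¬ 4 ∣ H.ip k k := by
  constructor
  · intro h
    by_cases hE : H.AllEven
    · right
      obtain ⟨v, hv, h4⟩ := (hasK3_iff hH (E.isD4 hH)).1 h
      obtain ⟨a, k, rfl, ha, hk, hP, h5⟩ := E.split hH hE hv
      refine ⟨k, hk, hP, fun h6 => h4 ?_⟩
      rw [hP.disc hH E ha]
      omega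
    · exact Or.inl hE
  · rintro (h | ⟨k, hk, hP, h4⟩)
    · exact (hH.of_not_allEven h).2
    · refine (hasK3_iff hH (E.isD4 hH)).2 ⟨k, hk, fun h => h4 ?_⟩
      rw [H4.disc, hP.h hH E] at h
      omega

/-- the divisors -/
theorem Eck.div (hH : H.IsCohomology) {p : Fin 6 → Fin 23 → ℤ} {q : Fin 23 → ℤ} (E : Eck H p q)
    {k : Fin 23 → ℤ} (hk : H.IsHodge k) (hP : Perp H p q k) (h4 : ¬ 4 ∣ H.ip k k) {d : ℤ} (hs : Squarefree d)
    (h : (d % 12 = 6 ∧ 3 * H.ip k k ≤ d) ∨ (d % 12 = 2 ∧ 3 * H.ip k k + 8 ≤ d)) : InDiv H d := by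
  have he := hP.even hH E
  rw [Int.even_iff] at he
  have hp0 : p 0 ∈ Sp p q := Submodule.subset_span (Or.inr ⟨0, rfl⟩)
  rcases h with ⟨h1, h2⟩ | ⟨h1, h2⟩
  · have hd : H.disc k = 3 * H.ip k k := by
      rw [H4.disc, hP.h hH E]
      ring
    exact div12 hH (E.isD4 hH) hk (by omega) hs (Or.inl (by omega))
  · have hd : H.disc (p 0 + k) = 8 + 3 * H.ip k k := by
      rw [hP.disc hH E hp0, H4.disc, (E.pl 0).2.2, (hH.comm _ _).trans (E.pl 0).2.1]
      norm_num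
    exact div12 hH (E.isD4 hH) (H.isHodge_add (E.pl 0).1 hk) (by omega) hs (Or.inl (by omega))

theorem sqf26 : Squarefree (26 : ℤ) :=
  Int.squarefree_natCast.2 (show Squarefree 26 by decide +kernel)

/-- **Generators of discriminant less than `36`.** -/
theorem Eck.gen36 (hH : H.IsCohomology) {p : Fin 6 → Fin 23 → ℤ} {q : Fin 23 → ℤ} (E : Eck H p q)
    (hE : H.AllEven)
    (hG : ∀ v, H.IsHodge v → v ∈ Submodule.span ℤ
      (insert H.h {w | H.IsHodge w ∧ H.disc w < 36}))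
    {v : Fin 23 → ℤ} (hv : H.IsHodge v) (h4 : ¬ 4 ∣ H.disc v) : InDiv H 42 := by
  by_contra hcon
  have hsm : ∀ k, H.IsHodge k → Perp H p q k → H.ip k k ≤ 14 → 4 ∣ H.ip k k := by
    intro k hk hP h14
    by_contra h
    exact hcon (E.div hH hk hP h sqf42 (Or.inl ⟨by norm_num, by omega⟩))
  apply h4
  refine span_even hH (G := {w | H.IsHodge w ∧ H.disc w < 36}) ?_ ?_ (hG v hv)
  · rintro x ⟨hx, hxd⟩ y ⟨hy, hyd⟩
    obtain ⟨a, k, rfl, ha, hk, hP, h5⟩ := E.split hH hE hx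
    obtain ⟨b, l, rfl, hb, hl, hQ, h6⟩ := E.split hH hE hy
    rw [hP.disc hH E ha] at hxd
    rw [hQ.disc hH E hb] at hyd
    have n1 := disc_nonneg hH (Sp.hodge E ha)
    have n2 := disc_nonneg hH (Sp.hodge E hb)
    have k4 := hsm k hk hP (by omega)
    have l4 := hsm l hl hQ (by omega)
    have hab := E.even_span hH hE ha hb
    have e1 : bb H (a + k) (b + l) = bb H a b + 3 * H.ip k l := by
      have h7 : H.ip k b = 0 := by rw [hH.comm]; exact hP.sp hb
      have h8 : H.ip a l = 0 := hQ.sp ha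
      simp only [bb, ip_add_left, ip_add_right, h7, h8, hP.h hH E, hQ.h hH E]
      ring
    have e2 : Even (H.ip k l) := by
      by_contra hodd
      rw [Int.not_even_iff_odd] at hodd
      obtain ⟨c, hc⟩ := hodd
      have f1 : H.ip (k + l) (k + l) = H.ip k k + H.ip l l + 2 * H.ip k l := by
        simp only [ip_add_left, ip_add_right]
        rw [hH.comm l k]
        ring
      have f2 : H.ip (k - l) (k - l) = H.ip k k + H.ip l l - 2 * H.ip k l := by
        simp only [ip_sub_left, ip_sub_right]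
        rw [hH.comm l k]
        ring
      have P1 : Perp H p q (k + l) := ⟨fun i => by rw [ip_add_right, hP.1, hQ.1, add_zero],
        by rw [ip_add_right, hP.2, hQ.2, add_zero]⟩
      have P2 : Perp H p q (k - l) := ⟨fun i => by rw [ip_sub_right, hP.1, hQ.1, sub_zero],
        by rw [ip_sub_right, hP.2, hQ.2, sub_zero]⟩
      have g1 := hsm _ (H.isHodge_add hk hl) P1
      have g2 := hsm _ (H.isHodge_sub hk hl) P2
      rw [f1] at g1
      rw [f2] at g2
      rcases le_or_gt 0 (H.ip k l) with h9 | h9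
      · have := g2 (by omega)
        omega
      · have := g1 (by omega)
        omega
    rw [e1]
    exact hab.add (e2.mul_left 3)
  · rintro x ⟨hx, hxd⟩
    obtain ⟨a, k, rfl, ha, hk, hP, h5⟩ := E.split hH hE hx
    rw [hP.disc hH E ha] at hxd ⊢
    have n1 := disc_nonneg hH (Sp.hodge E ha)
    have k4 := hsm k hk hP (by omega)
    omega

/-- the matrix of the pairs which intersect in `1` -/
def meet (H : H4 X) {n : ℕ} (p : Fin n → Fin 23 → ℤ) : Matrix (Fin n) (Fin n) ℤ :=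
  Matrix.of fun i j => if H.ip (p i) (p j) = 1 then 1 else 0

/-- **The rank.** -/
theorem rank_pl (hH : H.IsCohomology) {n : ℕ} (p : Fin n → Fin 23 → ℤ) (hp : ∀ i, H.IsPl (p i))
    (hdet : Odd (meet H p).det) (hr : 24 ≤ H.rank + n) : ¬ H.AllEven := by
  classical
  intro hE
  let b := Module.finBasis ℤ H.hodge
  have hrk : H.rank = Module.finrank ℤ H.hodge := H.rank_eq
  refine hH.count (ι := Fin n) (κ := Fin (Module.finrank ℤ H.hodge)) ?_ (g := fun i => H.h - p i)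
    (f := fun i => (b i : Fin 23 → ℤ)) (fun i => (b i).2) ?_ ?_ ?_
  · rw [Fintype.card_fin, Fintype.card_fin, ← hrk]
    omega
  · exact b.linearIndependent.map' H.hodge.subtype (Submodule.ker_subtype _)
  · intro j T hT
    exact hE _ (hp j) T hT
  · rintro ε ⟨v, hv⟩ j
    have hvH : H.IsHodge v := by
      refine H.isHodge_of_smul two_ne_zero ?_
      rw [← hv]
      exact H.isHodge_sum _ _ fun i _ => H.isHodge_smul _ (H.isHodge_sub hH.h_hodge (hp i).1)
    -- the products with the residual quadrics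
    have hval : ∀ i j, ∃ c : ℤ, H.ip (H.h - p j) (H.h - p i) = 2 * (meet H p j i + 2 * c) := by
      intro i j
      have h1 : H.ip (H.h - p j) (H.h - p i) = 1 + H.ip (p j) (p i) := by
        rw [ip_sub_left, ip_sub_right, ip_sub_right, hH.h_self, (hp j).2.1, hH.comm H.h (p i), (hp i).2.1]
        ring
      rw [h1]
      unfold meet
      rw [Matrix.of_apply]
      by_cases hji : p j = p i
      · rw [hji, (hp i).2.2, if_neg (by norm_num)]
        exact ⟨1, by norm_num⟩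
      · rcases hH.pm hE (hp j) (hp i) hji with h2 | h2
        · rw [h2, if_pos rfl]
          exact ⟨0, by norm_num⟩
        · rw [h2, if_neg (by norm_num)]
          exact ⟨0, by norm_num⟩
    choose c hc using hval
    have hprod : ∀ i, H.ip v (H.h - p i) = ∑ j, ε j * meet H p j i + 2 * ∑ j, ε j * c i j := by
      intro i
      have h1 : 2 * H.ip v (H.h - p i) = H.ip (∑ j, ε j • (H.h - p j)) (H.h - p i) := by
        rw [hv, ip_smul_left]
      have h2 : H.ip (∑ j, ε j • (H.h - p j)) (H.h - p i) =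
          2 * (∑ j, ε j * meet H p j i + 2 * ∑ j, ε j * c i j) := by
        rw [ip_sum_left, mul_add, mul_sum, mul_sum, mul_sum, ← sum_add_distrib]
        refine sum_congr rfl fun j _ => ?_
        rw [ip_smul_left, hc]
        ring
      rw [h2] at h1
      linarith
    have hev : ∀ i, Even ((Matrix.vecMul ε (meet H p)) i) := fun i => by
      have h1 := hE _ (hp i) v hvH
      rw [hprod i] at h1
      have h2 := (Int.even_add.1 h1).2 (even_two_mul _)
      exact h2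
    have h3 : Matrix.vecMul (Matrix.vecMul ε (meet H p)) (meet H p).adjugate = (meet H p).det • ε := by
      rw [Matrix.vecMul_vecMul, Matrix.mul_adjugate, Matrix.vecMul_smul, Matrix.vecMul_one]
    have h4 : Even ((meet H p).det * ε j) := by
      have h5 := congrFun h3 j
      rw [Pi.smul_apply, smul_eq_mul] at h5
      rw [← h5]
      unfold Matrix.vecMul
      exact Finset.even_sum _ fun i _ => (hev i).mul_right _
    rcases Int.even_mul.1 h4 with h6 | h6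
    · exact absurd h6 (Int.not_even_iff_odd.2 hdet)
    · exact h6

/-- six planes which intersect pairwise in `1` -/
theorem meet_six {p : Fin 6 → Fin 23 → ℤ} {q : Fin 23 → ℤ} (E : Eck H p q) : Odd (meet H p).det := by
  have h1 : meet H p = Matrix.of fun i j : Fin 6 => if i = j then (0 : ℤ) else 1 := by
    ext i j
    unfold meet
    rw [Matrix.of_apply, Matrix.of_apply]
    by_cases h : i = j
    · rw [if_pos h, h, (E.pl j).2.2, if_neg (by norm_num)]
    · rw [if_neg h, E.pp i j h, if_pos rfl]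
  rw [h1]
  decide +kernel

end Pool.Agent.Helper63.EI
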