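import Mathlib

/-!
# Sums of four squares with congruence conditions
-/

set_option autoImplicit false

namespace Pool.Agent.Helper63.EI

/-- Lagrange -/
theorem four (q : ℕ) : ∃ a b c d : ℤ, a ^ 2 + b ^ 2 + c ^ 2 + d ^ 2 = q := by
  obtain ⟨a, b, c, d, h⟩ := Nat.sum_four_squares q
  exact ⟨a, b, c, d, by rw [← h]; push_cast; ring⟩

theorem sq_odd {x : ℤ} (h : x % 2 = 1) : ∃ y : ℤ, x ^ 2 = 8 * y + 1 := by
  obtain ⟨k, hk⟩ : ∃ k, x = 2 * k + 1 := ⟨x / 2, by omega⟩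
  rcases Int.even_or_odd' k with ⟨m, hm | hm⟩
  · exact ⟨2 * m ^ 2 + m, by rw [hk, hm]; ring⟩
  · exact ⟨2 * m ^ 2 + 3 * m + 1, by rw [hk, hm]; ring⟩

theorem sq_even {x : ℤ} (h : x % 2 = 0) : ∃ y : ℤ, x = 2 * y ∧ x ^ 2 = 4 * y ^ 2 :=
  ⟨x / 2, by omega, by
    have h1 : x = 2 * (x / 2) := by omega
    conv_lhs => rw [h1]
    ring⟩

theorem sq_par (x : ℤ) : ∃ y : ℤ, x ^ 2 = x + 2 * y := by
  obtain ⟨y, hy⟩ := Int.even_mul_pred_self x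
  exact ⟨y, by linarith [show x ^ 2 = x * (x - 1) + x by ring]⟩

/-- four odd squares -/
theorem four_odd (m : ℕ) : ∃ a b c d : ℤ, a % 2 = 1 ∧ b % 2 = 1 ∧ c % 2 = 1 ∧ d % 2 = 1 ∧
    a ^ 2 + b ^ 2 + c ^ 2 + d ^ 2 = 8 * m + 4 := by
  obtain ⟨p, q, r, s, h⟩ := four (2 * m + 1)
  obtain ⟨p', hp⟩ := sq_par p
  obtain ⟨q', hq⟩ := sq_par q
  obtain ⟨r', hr⟩ := sq_par r
  obtain ⟨s', hs⟩ := sq_par s
  have h1 : (p + q + r + s) % 2 = 1 := by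
    push_cast at h
    omega
  refine ⟨p + q + r + s, p + q - r - s, p - q + r - s, p - q - r + s, h1, by omega, by omega, by omega, ?_⟩
  push_cast at h
  linear_combination 4 * h

/-- a sum of four squares which is two modulo four -/
theorem two_odd (m : ℕ) : ∃ a b c d : ℤ, a % 2 = 1 ∧ b % 2 = 1 ∧ c % 2 = 0 ∧ d % 2 = 0 ∧
    a ^ 2 + b ^ 2 + c ^ 2 + d ^ 2 = 4 * m + 2 := by
  obtain ⟨p, q, r, s, h⟩ := four (4 * m + 2)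
  push_cast at h
  rcases Int.emod_two_eq_zero_or_one p with hp | hp <;> rcases Int.emod_two_eq_zero_or_one q with hq | hq <;>
    rcases Int.emod_two_eq_zero_or_one r with hr | hr <;> rcases Int.emod_two_eq_zero_or_one s with hs | hs
  all_goals
    have ep : ∃ y, p ^ 2 = 4 * y + p % 2 := by
      first
        | (obtain ⟨y, hy⟩ := sq_odd hp; exact ⟨2 * y, by rw [hy, hp]; ring⟩)
        | (obtain ⟨y, -, hy⟩ := sq_even hp; exact ⟨y ^ 2, by rw [hy, hp]; ring⟩)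
    have eq : ∃ y, q ^ 2 = 4 * y + q % 2 := by
      first
        | (obtain ⟨y, hy⟩ := sq_odd hq; exact ⟨2 * y, by rw [hy, hq]; ring⟩)
        | (obtain ⟨y, -, hy⟩ := sq_even hq; exact ⟨y ^ 2, by rw [hy, hq]; ring⟩)
    have er : ∃ y, r ^ 2 = 4 * y + r % 2 := by
      first
        | (obtain ⟨y, hy⟩ := sq_odd hr; exact ⟨2 * y, by rw [hy, hr]; ring⟩)
        | (obtain ⟨y, -, hy⟩ := sq_even hr; exact ⟨y ^ 2, by rw [hy, hr]; ring⟩)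
    have es : ∃ y, s ^ 2 = 4 * y + s % 2 := by
      first
        | (obtain ⟨y, hy⟩ := sq_odd hs; exact ⟨2 * y, by rw [hy, hs]; ring⟩)
        | (obtain ⟨y, -, hy⟩ := sq_even hs; exact ⟨y ^ 2, by rw [hy, hs]; ring⟩)
    obtain ⟨yp, ep⟩ := ep
    obtain ⟨yq, eq⟩ := eq
    obtain ⟨yr, er⟩ := er
    obtain ⟨ys, es⟩ := es
    rw [hp] at ep
    rw [hq] at eq
    rw [hr] at er
    rw [hs] at es
    first
      | (exfalso; omega)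
      | exact ⟨p, q, r, s, hp, hq, hr, hs, h⟩
      | exact ⟨p, r, q, s, hp, hr, hq, hs, by linarith⟩
      | exact ⟨p, s, q, r, hp, hs, hq, hr, by linarith⟩
      | exact ⟨q, r, p, s, hq, hr, hp, hs, by linarith⟩
      | exact ⟨q, s, p, r, hq, hs, hp, hr, by linarith⟩
      | exact ⟨r, s, p, q, hr, hs, hp, hq, by linarith⟩

/-- the conclusion: `a i` all of the same parity with `∑ (c i + 2 a i)² = N` -/
def Con (c₁ c₂ c₃ c₄ N : ℤ) : Prop := ∃ a b c d : ℤ, (a - b) % 2 = 0 ∧ (a - c) % 2 = 0 ∧ (a - d) % 2 = 0 ∧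
  (c₁ + 2 * a) ^ 2 + (c₂ + 2 * b) ^ 2 + (c₃ + 2 * c) ^ 2 + (c₄ + 2 * d) ^ 2 = N

theorem Con.swap12 {c₁ c₂ c₃ c₄ N : ℤ} (h : Con c₂ c₁ c₃ c₄ N) : Con c₁ c₂ c₃ c₄ N := by
  obtain ⟨a, b, c, d, h1, h2, h3, h4⟩ := h
  exact ⟨b, a, c, d, by omega, by omega, by omega, by linarith⟩

theorem Con.swap23 {c₁ c₂ c₃ c₄ N : ℤ} (h : Con c₁ c₃ c₂ c₄ N) : Con c₁ c₂ c₃ c₄ N := by
  obtain ⟨a, b, c, d, h1, h2, h3, h4⟩ := h
  exact ⟨a, c, b, d, by omega, by omega, by omega, by linarith⟩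

theorem Con.swap34 {c₁ c₂ c₃ c₄ N : ℤ} (h : Con c₁ c₂ c₄ c₃ N) : Con c₁ c₂ c₃ c₄ N := by
  obtain ⟨a, b, c, d, h1, h2, h3, h4⟩ := h
  exact ⟨a, b, d, c, by omega, by omega, by omega, by linarith⟩

/-- an odd number can be replaced by its negative -/
theorem adj {c t : ℤ} (hc : c % 2 = 1) (ht : t % 2 = 1) (e : ℤ) :
    ∃ a : ℤ, (c + 2 * a) ^ 2 = t ^ 2 ∧ (a - e) % 2 = 0 := by
  by_cases h : ((t - c) / 2 - e) % 2 = 0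
  · refine ⟨(t - c) / 2, ?_, h⟩
    have : c + 2 * ((t - c) / 2) = t := by omega
    rw [this]
  · refine ⟨(-t - c) / 2, ?_, by omega⟩
    have : c + 2 * ((-t - c) / 2) = -t := by omega
    rw [this]
    ring

theorem con_odd {c₁ c₂ c₃ c₄ N : ℤ} (h1 : c₁ % 2 = 1) (h2 : c₂ % 2 = 1) (h3 : c₃ % 2 = 1) (h4 : c₄ % 2 = 1)
    (hN : c₁ ^ 2 + c₂ ^ 2 + c₃ ^ 2 + c₄ ^ 2 ≤ N) (h : (N - (c₁ ^ 2 + c₂ ^ 2 + c₃ ^ 2 + c₄ ^ 2)) % 8 = 0) :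
    Con c₁ c₂ c₃ c₄ N := by
  obtain ⟨y1, e1⟩ := sq_odd h1
  obtain ⟨y2, e2⟩ := sq_odd h2
  obtain ⟨y3, e3⟩ := sq_odd h3
  obtain ⟨y4, e4⟩ := sq_odd h4
  have p1 := sq_nonneg c₁
  have p2 := sq_nonneg c₂
  have p3 := sq_nonneg c₃
  have p4 := sq_nonneg c₄
  obtain ⟨a, b, c, d, ha, hb, hc, hd, hs⟩ := four_odd ((N - 4) / 8).toNat
  have hN' : (8 * (((N - 4) / 8).toNat : ℤ) + 4) = N := by omega
  rw [hN'] at hs
  obtain ⟨a', ha1, ha2⟩ := adj h1 ha 0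
  obtain ⟨b', hb1, hb2⟩ := adj h2 hb 0
  obtain ⟨c', hc1, hc2⟩ := adj h3 hc 0
  obtain ⟨d', hd1, hd2⟩ := adj h4 hd 0
  exact ⟨a', b', c', d', by omega, by omega, by omega, by linarith⟩

theorem con_two {c₁ c₂ c₃ c₄ N : ℤ} (h1 : c₁ % 2 = 1) (h2 : c₂ % 2 = 1) (h3 : c₃ % 2 = 0) (h4 : c₄ % 2 = 0)
    (hN : c₁ ^ 2 + c₂ ^ 2 + c₃ ^ 2 + c₄ ^ 2 ≤ N) (h : (N - (c₁ ^ 2 + c₂ ^ 2 + c₃ ^ 2 + c₄ ^ 2)) % 8 = 0) :
    Con c₁ c₂ c₃ c₄ N := by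
  obtain ⟨y1, e1⟩ := sq_odd h1
  obtain ⟨y2, e2⟩ := sq_odd h2
  obtain ⟨u, hu, e3⟩ := sq_even h3
  obtain ⟨v, hv, e4⟩ := sq_even h4
  have p1 := sq_nonneg c₁
  have p2 := sq_nonneg c₂
  have p3 := sq_nonneg c₃
  have p4 := sq_nonneg c₄
  obtain ⟨a, b, c, d, ha, hb, hc, hd, hs⟩ := two_odd ((N - 2) / 4).toNat
  obtain ⟨u', hu'⟩ := sq_par u
  obtain ⟨v', hv'⟩ := sq_par v
  have hN' : (4 * (((N - 2) / 4).toNat : ℤ) + 2) = N := by omega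
  rw [hN'] at hs
  obtain ⟨z1, f1⟩ := sq_odd ha
  obtain ⟨z2, f2⟩ := sq_odd hb
  obtain ⟨p, hp, f3⟩ := sq_even hc
  obtain ⟨q, hq, f4⟩ := sq_even hd
  obtain ⟨p', hp'⟩ := sq_par p
  obtain ⟨q', hq'⟩ := sq_par q
  have key : ((p - u) - (q - v)) % 2 = 0 := by omega
  obtain ⟨a', ha1, ha2⟩ := adj h1 ha (p - u)
  obtain ⟨b', hb1, hb2⟩ := adj h2 hb (p - u)
  refine ⟨a', b', p - u, q - v, by omega, by omega, by omega, ?_⟩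
  have g3 : c₃ + 2 * (p - u) = c := by omega
  have g4 : c₄ + 2 * (q - v) = d := by omega
  rw [g3, g4, ha1, hb1]
  exact hs

/-- the parity -/
def pb (x : ℤ) : Bool := decide (x % 2 = 1)

/-- the parities of a sum of four squares can be permuted -/
theorem perm_par : ∀ p q : Fin 4 → Bool, (∑ i, (p i).toNat) % 4 = (∑ i, (q i).toNat) % 4 →
    ∃ σ : Equiv.Perm (Fin 4), (∀ i, q (σ i) = p i) ∨ (∀ i, q (σ i) = !p i) := by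
  decide +kernel

theorem sq_mod4 (x : ℤ) : ∃ y : ℤ, x ^ 2 = 4 * y + ((pb x).toNat : ℤ) := by
  rcases Int.emod_two_eq_zero_or_one x with h | h
  · obtain ⟨y, -, hy⟩ := sq_even h
    exact ⟨y ^ 2, by rw [hy]; simp [pb, h]⟩
  · obtain ⟨y, hy⟩ := sq_odd h
    exact ⟨2 * y, by rw [hy]; simp [pb, h]; ring⟩

theorem pb_eq {x y : ℤ} (h : pb x = pb y) : (x - y) % 2 = 0 := by
  unfold pb at h
  rcases Int.emod_two_eq_zero_or_one x with hx | hx <;> rcases Int.emod_two_eq_zero_or_one y with hy | hy <;>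
    simp [hx, hy] at h <;> omega

theorem pb_ne {x y : ℤ} (h : pb x = !pb y) : (x - y) % 2 = 1 := by
  unfold pb at h
  rcases Int.emod_two_eq_zero_or_one x with hx | hx <;> rcases Int.emod_two_eq_zero_or_one y with hy | hy <;>
    simp [hx, hy] at h <;> omega

theorem con_even {c₁ c₂ c₃ c₄ N : ℤ} (h1 : c₁ % 2 = 0) (h2 : c₂ % 2 = 0) (h3 : c₃ % 2 = 0) (h4 : c₄ % 2 = 0)
    (hN : c₁ ^ 2 + c₂ ^ 2 + c₃ ^ 2 + c₄ ^ 2 ≤ N) (h : (N - (c₁ ^ 2 + c₂ ^ 2 + c₃ ^ 2 + c₄ ^ 2)) % 16 = 0) :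
    Con c₁ c₂ c₃ c₄ N := by
  obtain ⟨y1, k1, e1⟩ := sq_even h1
  obtain ⟨y2, k2, e2⟩ := sq_even h2
  obtain ⟨y3, k3, e3⟩ := sq_even h3
  obtain ⟨y4, k4, e4⟩ := sq_even h4
  have p1 := sq_nonneg y1
  have p2 := sq_nonneg y2
  have p3 := sq_nonneg y3
  have p4 := sq_nonneg y4
  obtain ⟨a, b, c, d, hs⟩ := four (N / 4).toNat
  have hN' : (((N / 4).toNat : ℤ)) = N / 4 := Int.toNat_of_nonneg (by omega)
  rw [hN'] at hs
  obtain ⟨z1, w1⟩ := sq_mod4 y1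
  obtain ⟨z2, w2⟩ := sq_mod4 y2
  obtain ⟨z3, w3⟩ := sq_mod4 y3
  obtain ⟨z4, w4⟩ := sq_mod4 y4
  obtain ⟨a', wa⟩ := sq_mod4 a
  obtain ⟨b', wb⟩ := sq_mod4 b
  obtain ⟨c', wc⟩ := sq_mod4 c
  obtain ⟨d', wd⟩ := sq_mod4 d
  let s : Fin 4 → ℤ := ![a, b, c, d]
  let y : Fin 4 → ℤ := ![y1, y2, y3, y4]
  obtain ⟨σ, hσ⟩ := perm_par (fun i => pb (y i)) (fun i => pb (s i)) (by
      rw [Fin.sum_univ_four, Fin.sum_univ_four]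
      show ((pb y1).toNat + (pb y2).toNat + (pb y3).toNat + (pb y4).toNat) % 4 =
        ((pb a).toNat + (pb b).toNat + (pb c).toNat + (pb d).toNat) % 4
      omega)
  have hsum : s (σ 0) ^ 2 + s (σ 1) ^ 2 + s (σ 2) ^ 2 + s (σ 3) ^ 2 = N / 4 := by
    have h5 : ∑ i, s (σ i) ^ 2 = ∑ i, s i ^ 2 := Equiv.sum_comp σ fun i => s i ^ 2
    rw [Fin.sum_univ_four, Fin.sum_univ_four] at h5
    rw [h5]
    exact hs
  have hpar : ∃ e : ℤ, (s (σ 0) - y1) % 2 = e ∧ (s (σ 1) - y2) % 2 = e ∧ (s (σ 2) - y3) % 2 = e ∧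
      (s (σ 3) - y4) % 2 = e := by
    rcases hσ with hσ | hσ
    · exact ⟨0, pb_eq (hσ 0), pb_eq (hσ 1), pb_eq (hσ 2), pb_eq (hσ 3)⟩
    · exact ⟨1, pb_ne (hσ 0), pb_ne (hσ 1), pb_ne (hσ 2), pb_ne (hσ 3)⟩
  obtain ⟨e, g0, g1, g2, g3⟩ := hpar
  refine ⟨s (σ 0) - y1, s (σ 1) - y2, s (σ 2) - y3, s (σ 3) - y4, by omega, by omega, by omega, ?_⟩
  rw [k1, k2, k3, k4]
  have h7 : N = 4 * (N / 4) := by omega
  rw [h7, ← hsum]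
  ring

/-- **Sums of four squares with congruence conditions.** -/
theorem con_all {c₁ c₂ c₃ c₄ N : ℤ} (hc : (c₁ + c₂ + c₃ + c₄) % 2 = 0)
    (hN : c₁ ^ 2 + c₂ ^ 2 + c₃ ^ 2 + c₄ ^ 2 ≤ N)
    (h : (N - (c₁ ^ 2 + c₂ ^ 2 + c₃ ^ 2 + c₄ ^ 2)) % 16 = 0 ∨
      ((c₁ % 2 = 1 ∨ c₂ % 2 = 1 ∨ c₃ % 2 = 1 ∨ c₄ % 2 = 1) ∧
        (N - (c₁ ^ 2 + c₂ ^ 2 + c₃ ^ 2 + c₄ ^ 2)) % 8 = 0)) : Con c₁ c₂ c₃ c₄ N := by
  have h8 : (N - (c₁ ^ 2 + c₂ ^ 2 + c₃ ^ 2 + c₄ ^ 2)) % 8 = 0 := by omega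
  rcases Int.emod_two_eq_zero_or_one c₁ with h1 | h1 <;> rcases Int.emod_two_eq_zero_or_one c₂ with h2 | h2 <;>
    rcases Int.emod_two_eq_zero_or_one c₃ with h3 | h3 <;> rcases Int.emod_two_eq_zero_or_one c₄ with h4 | h4
  · exact con_even h1 h2 h3 h4 hN (by omega)
  · exfalso; omega
  · exfalso; omega
  · exact ((con_two h3 h4 h1 h2 (by linarith) (by rw [← h8]; congr 1; ring)).swap23.swap12.swap34.swap23)
  · exfalso; omega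
  · exact ((con_two h2 h4 h1 h3 (by linarith) (by rw [← h8]; congr 1; ring)).swap23.swap12.swap34)
  · exact ((con_two h2 h3 h1 h4 (by linarith) (by rw [← h8]; congr 1; ring)).swap23.swap12)
  · exfalso; omega
  · exfalso; omega
  · exact ((con_two h1 h4 h2 h3 (by linarith) (by rw [← h8]; congr 1; ring)).swap23.swap34)
  · exact ((con_two h1 h3 h2 h4 (by linarith) (by rw [← h8]; congr 1; ring)).swap23)
  · exfalso; omega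
  · exact con_two h1 h2 h3 h4 hN h8
  · exfalso; omega
  · exfalso; omega
  · exact con_odd h1 h2 h3 h4 hN h8

end Pool.Agent.Helper63.EI
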