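import Pool.Agent.Helper63.EI.Four
import Pool.Agent.Helper36K9.CF.Plane

/-!
# Cubic fourfolds with four orthogonal Hodge classes of square four

The sum of the four classes is twice a Hodge class. Such frames exist if the lattice `D₄(2)` is contained
in the lattice of Hodge classes orthogonal to `h`.
-/

set_option autoImplicit false
set_option linter.unusedSimpArgs false

namespace Pool.Agent.Helper63.EI

open Pool.Agent.Y95.Q Pool.Agent.Y95.Q.H4 Pool.Agent.Helper36K9.CF Finset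

variable {X : CubicFourfold} {H : H4 X}

/-- four orthogonal Hodge classes of square four whose sum is twice a Hodge class -/
structure Frame (H : H4 X) (f : Fin 4 → Fin 23 → ℤ) (g : Fin 23 → ℤ) : Prop where
  hf : ∀ i, H.IsHodge (f i)
  hg : H.IsHodge g
  self : ∀ i, H.ip (f i) (f i) = 4
  ne : ∀ i j, i ≠ j → H.ip (f i) (f j) = 0
  sum : f 0 + f 1 + f 2 + f 3 = (2 : ℤ) • g
  orth : ∀ i, H.ip H.h (f i) = 0

/-- **The discriminants in the classes modulo a frame.** -/
theorem Frame.reach (hH : H.IsCohomology) {f : Fin 4 → Fin 23 → ℤ} {g : Fin 23 → ℤ} (F : Frame H f g)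
    {v : Fin 23 → ℤ} (hv : H.IsHodge v) {d : ℤ} (hd : H.disc v ≤ d)
    (h : 12 ∣ d - H.disc v ∨ ((∃ i, H.ip v (f i) % 2 = 1) ∧ 6 ∣ d - H.disc v)) :
    ∃ w, H.IsHodge w ∧ H.disc w = d := by
  have h6 : 6 ∣ d - H.disc v := by
    rcases h with h | h
    · exact (by norm_num : (6 : ℤ) ∣ 12).trans h
    · exact h.2
  obtain ⟨t, ht⟩ := h6
  have ht0 : 0 ≤ t := by omega
  have hsum : H.ip v (f 0) + H.ip v (f 1) + H.ip v (f 2) + H.ip v (f 3) = 2 * H.ip v g := by
    rw [← ip_smul_right, ← F.sum, ip_add_right, ip_add_right, ip_add_right]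
  have key : Con (H.ip v (f 0)) (H.ip v (f 1)) (H.ip v (f 2)) (H.ip v (f 3))
      (H.ip v (f 0) ^ 2 + H.ip v (f 1) ^ 2 + H.ip v (f 2) ^ 2 + H.ip v (f 3) ^ 2 + 8 * t) := by
    refine con_all (by omega) (by omega) ?_
    rcases h with h | ⟨⟨i, hi⟩, -⟩
    · left
      omega
    · right
      refine ⟨?_, by omega⟩
      fin_cases i
      · exact Or.inl hi
      · exact Or.inr (Or.inl hi)
      · exact Or.inr (Or.inr (Or.inl hi))
      · exact Or.inr (Or.inr (Or.inr hi))
  obtain ⟨a, b, c, k, h1, h2, h3, h4⟩ := key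
  obtain ⟨r, a', ha⟩ : ∃ r a' : ℤ, a = 2 * a' + r := ⟨a % 2, a / 2, by omega⟩
  obtain ⟨b', hb⟩ : ∃ b' : ℤ, b = 2 * b' + r := ⟨(b - r) / 2, by omega⟩
  obtain ⟨c', hc⟩ : ∃ c' : ℤ, c = 2 * c' + r := ⟨(c - r) / 2, by omega⟩
  obtain ⟨k', hk⟩ : ∃ k' : ℤ, k = 2 * k' + r := ⟨(k - r) / 2, by omega⟩
  obtain ⟨x, hx⟩ : ∃ x, x = a' • f 0 + b' • f 1 + c' • f 2 + k' • f 3 + r • g := ⟨_, rfl⟩
  have hxH : H.IsHodge x := by
    rw [hx]
    exact H.isHodge_add (H.isHodge_add (H.isHodge_add (H.isHodge_add (H.isHodge_smul _ (F.hf 0))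
      (H.isHodge_smul _ (F.hf 1))) (H.isHodge_smul _ (F.hf 2))) (H.isHodge_smul _ (F.hf 3)))
      (H.isHodge_smul _ F.hg)
  have h2x : (2 : ℤ) • x = a • f 0 + b • f 1 + c • f 2 + k • f 3 := by
    have e1 : (2 : ℤ) • x = (2 * a') • f 0 + (2 * b') • f 1 + (2 * c') • f 2 + (2 * k') • f 3 +
        r • ((2 : ℤ) • g) := by
      rw [hx]
      module
    rw [e1, ← F.sum, ha, hb, hc, hk]
    module
  have e1 : ∀ u, 2 * H.ip u x = a * H.ip u (f 0) + b * H.ip u (f 1) + c * H.ip u (f 2) + k * H.ip u (f 3) := by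
    intro u
    rw [← ip_smul_right, h2x, ip_add_right, ip_add_right, ip_add_right, ip_smul_right, ip_smul_right,
      ip_smul_right, ip_smul_right]
  have ev := e1 v
  have eh := e1 H.h
  rw [F.orth, F.orth, F.orth, F.orth] at eh
  have ex := e1 x
  have e0 := e1 (f 0)
  have e2 := e1 (f 1)
  have e3 := e1 (f 2)
  have e4 := e1 (f 3)
  rw [F.self, F.ne 0 1 (by decide), F.ne 0 2 (by decide), F.ne 0 3 (by decide)] at e0
  rw [F.self, F.ne 1 0 (by decide), F.ne 1 2 (by decide), F.ne 1 3 (by decide)] at e2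
  rw [F.self, F.ne 2 0 (by decide), F.ne 2 1 (by decide), F.ne 2 3 (by decide)] at e3
  rw [F.self, F.ne 3 0 (by decide), F.ne 3 1 (by decide), F.ne 3 2 (by decide)] at e4
  rw [hH.comm x (f 0), hH.comm x (f 1), hH.comm x (f 2), hH.comm x (f 3)] at ex
  have g0 : H.ip (f 0) x = 2 * a := by linarith
  have g1 : H.ip (f 1) x = 2 * b := by linarith
  have g2 : H.ip (f 2) x = 2 * c := by linarith
  have g3 : H.ip (f 3) x = 2 * k := by linarith
  rw [g0, g1, g2, g3] at ex
  have hxx : H.ip x x = a ^ 2 + b ^ 2 + c ^ 2 + k ^ 2 := by linarith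
  have hhx : H.ip H.h x = 0 := by linarith
  refine ⟨v + x, H.isHodge_add hv hxH, ?_⟩
  rw [disc_add hH, bb, hhx]
  have hdx : H.disc x = 3 * (a ^ 2 + b ^ 2 + c ^ 2 + k ^ 2) := by
    rw [disc, hhx, hxx]
    ring
  rw [hdx]
  linarith

/-- Hodge classes orthogonal to `h` with the intersection form `D₄(2)` -/
def IsD4 (H : H4 X) (e : Fin 4 → Fin 23 → ℤ) : Prop :=
  (∀ i, H.IsHodge (e i) ∧ H.ip (e i) H.h = 0) ∧ ∀ i j, H.ip (e i) (e j) = 2 * CartanMatrix.D 4 i j

theorem IsD4.vals {e : Fin 4 → Fin 23 → ℤ} (he : IsD4 H e) :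
    H.ip (e 0) (e 0) = 4 ∧ H.ip (e 0) (e 1) = -2 ∧ H.ip (e 0) (e 2) = 0 ∧ H.ip (e 0) (e 3) = 0 ∧
    H.ip (e 1) (e 0) = -2 ∧ H.ip (e 1) (e 1) = 4 ∧ H.ip (e 1) (e 2) = -2 ∧ H.ip (e 1) (e 3) = -2 ∧
    H.ip (e 2) (e 0) = 0 ∧ H.ip (e 2) (e 1) = -2 ∧ H.ip (e 2) (e 2) = 4 ∧ H.ip (e 2) (e 3) = 0 ∧
    H.ip (e 3) (e 0) = 0 ∧ H.ip (e 3) (e 1) = -2 ∧ H.ip (e 3) (e 2) = 0 ∧ H.ip (e 3) (e 3) = 4 := by
  have h := he.2
  have m : CartanMatrix.D 4 = !![2, -1, 0, 0; -1, 2, -1, -1; 0, -1, 2, 0; 0, -1, 0, 2] := by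
    decide +kernel
  simp only [m] at h
  exact ⟨h 0 0, h 0 1, h 0 2, h 0 3, h 1 0, h 1 1, h 1 2, h 1 3, h 2 0, h 2 1, h 2 2, h 2 3, h 3 0, h 3 1,
    h 3 2, h 3 3⟩

theorem IsD4.orth (hH : H.IsCohomology) {e : Fin 4 → Fin 23 → ℤ} (he : IsD4 H e) (i : Fin 4) :
    H.ip H.h (e i) = 0 := (hH.comm _ _).trans (he.1 i).2

theorem IsD4.frame1 (hH : H.IsCohomology) {e : Fin 4 → Fin 23 → ℤ} (he : IsD4 H e) :
    Frame H ![e 0, e 2, e 3, e 0 + (e 1 + e 1) + e 2 + e 3] (e 0 + e 1 + e 2 + e 3) := by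
  obtain ⟨h00, h01, h02, h03, h10, h11, h12, h13, h20, h21, h22, h23, h30, h31, h32, h33⟩ := he.vals
  have o0 := he.orth hH 0
  have o1 := he.orth hH 1
  have o2 := he.orth hH 2
  have o3 := he.orth hH 3
  have i0 := (he.1 0).1
  have i1 := (he.1 1).1
  have i2 := (he.1 2).1
  have i3 := (he.1 3).1
  refine ⟨?_, ?_, ?_, ?_, ?_, ?_⟩
  · intro i
    fin_cases i
    · exact i0
    · exact i2
    · exact i3
    · exact H.isHodge_add (H.isHodge_add (H.isHodge_add i0 (H.isHodge_add i1 i1)) i2) i3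
  · exact H.isHodge_add (H.isHodge_add (H.isHodge_add i0 i1) i2) i3
  · intro i
    fin_cases i <;>
      simp [ip_add_left, ip_add_right, ip_smul_left, ip_smul_right, h00, h01, h02, h03, h10, h11, h12, h13, h20,
        h21, h22, h23, h30, h31, h32, h33]
  · intro i j hij
    fin_cases i <;> fin_cases j <;> first
      | exact absurd rfl hij
      | simp [ip_add_left, ip_add_right, ip_smul_left, ip_smul_right, h00, h01, h02, h03, h10, h11, h12, h13, h20,
          h21, h22, h23, h30, h31, h32, h33]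
  · show e 0 + e 2 + e 3 + (e 0 + (e 1 + e 1) + e 2 + e 3) = _
    module
  · intro i
    fin_cases i <;> simp [ip_add_right, ip_smul_right, o0, o1, o2, o3]

theorem IsD4.frame2 (hH : H.IsCohomology) {e : Fin 4 → Fin 23 → ℤ} (he : IsD4 H e) :
    Frame H ![e 1, e 0 + e 1 + e 2, e 0 + e 1 + e 3, e 1 + e 2 + e 3]
      (e 0 + (e 1 + e 1) + e 2 + e 3) := by
  obtain ⟨h00, h01, h02, h03, h10, h11, h12, h13, h20, h21, h22, h23, h30, h31, h32, h33⟩ := he.vals
  have o0 := he.orth hH 0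
  have o1 := he.orth hH 1
  have o2 := he.orth hH 2
  have o3 := he.orth hH 3
  have i0 := (he.1 0).1
  have i1 := (he.1 1).1
  have i2 := (he.1 2).1
  have i3 := (he.1 3).1
  refine ⟨?_, ?_, ?_, ?_, ?_, ?_⟩
  · intro i
    fin_cases i
    · exact i1
    · exact H.isHodge_add (H.isHodge_add i0 i1) i2
    · exact H.isHodge_add (H.isHodge_add i0 i1) i3
    · exact H.isHodge_add (H.isHodge_add i1 i2) i3
  · exact H.isHodge_add (H.isHodge_add (H.isHodge_add i0 (H.isHodge_add i1 i1)) i2) i3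
  · intro i
    fin_cases i <;>
      simp [ip_add_left, ip_add_right, ip_smul_left, ip_smul_right, h00, h01, h02, h03, h10, h11, h12, h13, h20,
        h21, h22, h23, h30, h31, h32, h33]
  · intro i j hij
    fin_cases i <;> fin_cases j <;> first
      | exact absurd rfl hij
      | simp [ip_add_left, ip_add_right, ip_smul_left, ip_smul_right, h00, h01, h02, h03, h10, h11, h12, h13, h20,
          h21, h22, h23, h30, h31, h32, h33]
  · show e 1 + (e 0 + e 1 + e 2) + (e 0 + e 1 + e 3) + (e 1 + e 2 + e 3) = _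
    module
  · intro i
    fin_cases i <;> simp [ip_add_right, ip_smul_right, o0, o1, o2, o3]

/-- **The discriminants in the classes modulo `D₄(2)`.** -/
theorem reach_disc (hH : H.IsCohomology) {e : Fin 4 → Fin 23 → ℤ} (he : IsD4 H e) {v : Fin 23 → ℤ}
    (hv : H.IsHodge v) {d : ℤ} (hd : H.disc v ≤ d)
    (h : 12 ∣ d - H.disc v ∨ ((∃ i, Odd (H.ip v (e i))) ∧ 6 ∣ d - H.disc v)) :
    ∃ w, H.IsHodge w ∧ H.disc w = d := by
  rcases h with h | ⟨⟨i, hi⟩, h⟩
  · exact (he.frame1 hH).reach hH hv hd (Or.inl h)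
  · rw [Int.odd_iff] at hi
    fin_cases i
    · exact (he.frame1 hH).reach hH hv hd (Or.inr ⟨⟨0, hi⟩, h⟩)
    · exact (he.frame2 hH).reach hH hv hd (Or.inr ⟨⟨0, hi⟩, h⟩)
    · exact (he.frame1 hH).reach hH hv hd (Or.inr ⟨⟨1, hi⟩, h⟩)
    · exact (he.frame1 hH).reach hH hv hd (Or.inr ⟨⟨2, hi⟩, h⟩)

/-- a Hodge class with squarefree discriminant gives a saturated one -/
theorem inDiv_sqf (hH : H.IsCohomology) {v : Fin 23 → ℤ} (hv : H.IsHodge v) {d : ℤ} (hd : H.disc v = d)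
    (h0 : 0 < d) (hs : Squarefree d) : InDiv H d := by
  obtain ⟨w, m, l, hm, hsat, hw⟩ := hH.exists_saturated v (by omega)
  have hwH : H.IsHodge w := by
    refine H.isHodge_of_smul hm.ne' ?_
    have h1 : m • w = v - l • H.h := by
      rw [hw]
      abel
    rw [h1]
    exact H.isHodge_sub hv (H.isHodge_smul _ hH.h_hodge)
  have hmw : m ^ 2 * H.disc w = d := by
    rw [← hd, hw, hH.disc_comb]
  have hu : IsUnit m := hs m ⟨H.disc w, by rw [← hmw]; ring⟩
  have hm1 : m = 1 := by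
    rcases Int.isUnit_iff.1 hu with h | h <;> omega
  rw [hm1] at hmw
  exact ⟨w, hwH, hsat, by linarith⟩

theorem disc_pos_of_four (hH : H.IsCohomology) {v : Fin 23 → ℤ} (hv : H.IsHodge v) (h4 : ¬ 4 ∣ H.disc v) :
    0 < H.disc v := by
  have := disc_nonneg hH hv
  omega

/-- the divisors `C_d`, `d = disc v` modulo `12` -/
theorem div12 (hH : H.IsCohomology) {e : Fin 4 → Fin 23 → ℤ} (he : IsD4 H e) {v : Fin 23 → ℤ}
    (hv : H.IsHodge v) {d : ℤ} (hd : H.disc v ≤ d) (hs : Squarefree d)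
    (h : 12 ∣ d - H.disc v ∨ ((∃ i, Odd (H.ip v (e i))) ∧ 6 ∣ d - H.disc v)) : InDiv H d := by
  obtain ⟨w, h1, h2⟩ := reach_disc hH he hv hd h
  have h0 : 0 < d := by
    have h3 := disc_nonneg hH hv
    have h4 : d ≠ 0 := hs.ne_zero
    omega
  exact inDiv_sqf hH h1 h2 h0 hs

theorem sqf38 : Squarefree (38 : ℤ) :=
  Int.squarefree_natCast.2 (show Squarefree 38 by decide +kernel)

theorem sqf42 : Squarefree (42 : ℤ) :=
  Int.squarefree_natCast.2 (show Squarefree 42 by decide +kernel)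

theorem sqf14 : Squarefree (14 : ℤ) :=
  Int.squarefree_natCast.2 (show Squarefree 14 by decide +kernel)

/-- a class of small discriminant -/
theorem small (hH : H.IsCohomology) {e : Fin 4 → Fin 23 → ℤ} (he : IsD4 H e) {v : Fin 23 → ℤ}
    (hv : H.IsHodge v) (h4 : ¬ 4 ∣ H.disc v) (h50 : H.disc v < 50) : InDiv H 38 ∨ InDiv H 42 := by
  have h6 := disc_mod6 hH v
  have h0 := disc_pos_of_four hH hv h4
  rcases h6 with h6 | h6
  · right
    exact div12 hH he hv (by omega) sqf42 (Or.inl (by omega))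
  · left
    exact div12 hH he hv (by omega) sqf38 (Or.inl (by omega))

/-- planes with an odd product with a class of `D₄(2)` -/
theorem plane14 (hH : H.IsCohomology) {e : Fin 4 → Fin 23 → ℤ} (he : IsD4 H e) {P : Fin 23 → ℤ}
    (hP : H.IsPl P) {i : Fin 4} (hi : Odd (H.ip P (e i))) : InDiv H 14 := by
  have hhP : H.ip H.h P = 1 := (hH.comm _ _).trans hP.2.1
  have hPd : H.disc P = 8 := by
    rw [disc, hhP, hP.2.2]; norm_num
  exact div12 hH he hP.1 (by omega) sqf14 (Or.inr ⟨⟨i, hi⟩, by rw [hPd]; norm_num⟩)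

/-- **Generators of small discriminant.** -/
theorem gen32 (hH : H.IsCohomology) {e : Fin 4 → Fin 23 → ℤ} (he : IsD4 H e)
    (hG : ∀ v, H.IsHodge v → v ∈ Submodule.span ℤ
      (insert H.h {w | H.IsHodge w ∧ H.disc w < 32}))
    {v : Fin 23 → ℤ} (hv : H.IsHodge v) (h4 : ¬ 4 ∣ H.disc v) : InDiv H 38 ∨ InDiv H 42 := by
  by_contra hcon
  have hsm : ∀ w, H.IsHodge w → H.disc w < 50 → 4 ∣ H.disc w := by
    intro w hw hd
    by_contra h
    exact hcon (small hH he hw h hd)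
  have hval : ∀ w, H.IsHodge w → H.disc w < 32 → H.disc w ≤ 24 := by
    intro w hw hd
    have h1 := hsm w hw (by omega)
    have h2 := disc_mod6 hH w
    omega
  apply h4
  refine span_even hH (G := {w | H.IsHodge w ∧ H.disc w < 32}) ?_ ?_ (hG v hv)
  · rintro x ⟨hx, hxd⟩ y ⟨hy, hyd⟩
    by_contra hodd
    rw [Int.not_even_iff_odd] at hodd
    obtain ⟨c, hc⟩ := hodd
    have hx1 := hval x hx hxd
    have hy1 := hval y hy hyd
    have hx4 := hsm x hx (by omega)
    have hy4 := hsm y hy (by omega)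
    have hp := disc_add hH x y
    have hm := disc_add hH x ((-1 : ℤ) • y)
    rw [disc_smul, bb_smul_right] at hm
    have hp4 : ¬ 4 ∣ H.disc (x + y) := by rw [hp, hc]; omega
    have hm4 : ¬ 4 ∣ H.disc (x + (-1 : ℤ) • y) := by rw [hm, hc]; omega
    have hp48 : ¬ H.disc (x + y) < 50 := fun h =>
      hp4 (hsm _ (H.isHodge_add hx hy) h)
    have hm48 : ¬ H.disc (x + (-1 : ℤ) • y) < 50 := fun h =>
      hm4 (hsm _ (H.isHodge_add hx (H.isHodge_smul _ hy)) h)
    rw [hp] at hp48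
    rw [hm] at hm48
    omega
  · rintro x ⟨hx, hxd⟩
    exact hsm x hx (by omega)

/-- primes `p = 1` modulo `6` -/
theorem exists_prime (n : ℕ) : ∃ p : ℕ, n < p ∧ p.Prime ∧ p % 6 = 1 := by
  have : NeZero (6 : ℕ) := ⟨by norm_num⟩
  obtain ⟨p, hp, hpp, h⟩ := Nat.forall_exists_prime_gt_and_eq_mod (q := 6) (a := (1 : ZMod 6)) isUnit_one n
  refine ⟨p, hp, hpp, ?_⟩
  have h1 : ((p : ℕ) : ZMod 6) = ((1 : ℕ) : ZMod 6) := by rw [h]; simp
  have h2 := (ZMod.natCast_eq_natCast_iff' p 1 6).1 h1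
  omega

/-- **The criterion for an associated K3 surface.** -/
theorem hasK3_iff (hH : H.IsCohomology) {e : Fin 4 → Fin 23 → ℤ} (he : IsD4 H e) :
    H.HasK3 ↔ ∃ v, H.IsHodge v ∧ ¬ 4 ∣ H.disc v := by
  constructor
  · rintro ⟨v, hv, -, hA⟩
    exact ⟨v, hv, hA.2.1⟩
  · rintro ⟨v, hv, h4⟩
    have h6 := disc_mod6 hH v
    have h0 := disc_pos_of_four hH hv h4
    obtain ⟨p, hp, hpp, hp6⟩ := exists_prime ((H.disc v).toNat + 6)
    have hp' : H.disc v + 6 < p := by omega
    have hp2 : p ≠ 2 := by omega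
    have hp3 : p ≠ 3 := by omega
    have hodd : Odd p := hpp.odd_of_ne_two hp2
    have c2 : Nat.Coprime 2 p := (Nat.coprime_primes Nat.prime_two hpp).2 (Ne.symm hp2)
    have c3 : Nat.Coprime 3 p := (Nat.coprime_primes Nat.prime_three hpp).2 (Ne.symm hp3)
    have hmod : ∀ q : ℕ, q.Prime → q ≠ 2 → q ∣ 6 * p → q % 3 ≠ 2 := by
      intro q hq hq2 hd
      rcases (Nat.Prime.dvd_mul hq).1 hd with h | h
      · have h1 : q ∣ 2 * 3 := by simpa using h
        rcases (Nat.Prime.dvd_mul hq).1 h1 with h | h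
        · exact absurd ((Nat.prime_dvd_prime_iff_eq hq Nat.prime_two).1 h) hq2
        · rw [(Nat.prime_dvd_prime_iff_eq hq Nat.prime_three).1 h]
          norm_num
      · rw [(Nat.prime_dvd_prime_iff_eq hq hpp).1 h]
        omega
    have s2p : Squarefree (2 * p) := by
      rw [Nat.squarefree_mul c2]
      exact ⟨Nat.prime_two.squarefree, hpp.squarefree⟩
    have s6p : Squarefree (6 * p) := by
      have h1 : Nat.Coprime 6 p := by
        rw [show 6 = 2 * 3 by norm_num]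
        exact Nat.Coprime.mul_left c2 c3
      rw [Nat.squarefree_mul h1]
      exact ⟨by decide +kernel, hpp.squarefree⟩
    rcases h6 with h6 | h6
    · have hs : Squarefree ((6 * p : ℕ) : ℤ) := by
        exact Int.squarefree_natCast.2 s6p
      obtain ⟨w, hw, hsat, hwd⟩ := div12 hH he hv (d := ((6 * p : ℕ) : ℤ)) (by push_cast; omega) hs
        (Or.inl (by push_cast; omega))
      refine ⟨w, hw, hsat, ?_⟩
      rw [hwd]
      refine ⟨by push_cast; omega, by push_cast; omega, ?_, fun q hq hq2 hd => ?_⟩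
      · intro h9
        have h9' : 9 ∣ 6 * p := by exact_mod_cast h9
        have h3 : 3 ∣ p := by omega
        exact hp3 ((Nat.prime_dvd_prime_iff_eq Nat.prime_three hpp).1 h3).symm
      · exact hmod q hq hq2 (by exact_mod_cast hd)
    · have hs : Squarefree ((2 * p : ℕ) : ℤ) := by
        exact Int.squarefree_natCast.2 s2p
      obtain ⟨w, hw, hsat, hwd⟩ := div12 hH he hv (d := ((2 * p : ℕ) : ℤ)) (by push_cast; omega) hs
        (Or.inl (by push_cast; omega))
      refine ⟨w, hw, hsat, ?_⟩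
      rw [hwd]
      refine ⟨by push_cast; omega, by push_cast; omega, ?_, fun q hq hq2 hd => ?_⟩
      · intro h9
        have h9' : 9 ∣ 2 * p := by exact_mod_cast h9
        omega
      · have h1 : q ∣ 2 * p := by exact_mod_cast hd
        exact hmod q hq hq2 (h1.trans ⟨3, by ring⟩)

/-- **The rank.** A group of Hodge classes of rank at least `13` contains a class whose discriminant is
not divisible by four. -/
theorem rank13 (hH : H.IsCohomology) (h13 : 13 ≤ H.rank) : ∃ v, H.IsHodge v ∧ ¬ 4 ∣ H.disc v := by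
  classical
  by_contra hcon
  push Not at hcon
  have hbb : ∀ u v, H.IsHodge u → H.IsHodge v → Even (bb H u v) := by
    intro u v hu hv
    have h1 := hcon _ (H.isHodge_add hu hv)
    rw [disc_add hH] at h1
    have h2 := hcon _ hu
    have h3 := hcon _ hv
    rw [Int.even_iff]
    omega
  let b := Module.finBasis ℤ H.hodge
  have hr : H.rank = Module.finrank ℤ H.hodge := H.rank_eq
  -- a basis element with odd degree
  have hodd : ∃ i0, Odd (H.ip H.h (b i0 : Fin 23 → ℤ)) := by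
    by_contra hno
    push Not at hno
    let x : H.hodge := ⟨H.h, hH.h_hodge⟩
    have h1 : (x : Fin 23 → ℤ) = ∑ i, b.repr x i • (b i : Fin 23 → ℤ) := by
      conv_lhs => rw [← b.sum_repr x]
      rw [Submodule.coe_sum]
      rfl
    have h2 : H.ip H.h H.h = ∑ i, b.repr x i * H.ip H.h (b i : Fin 23 → ℤ) := by
      have h3 : H.ip H.h (x : Fin 23 → ℤ) = ∑ i, b.repr x i * H.ip H.h (b i : Fin 23 → ℤ) := by
        conv_lhs => rw [h1]
        rw [ip_sum_right]
        exact sum_congr rfl fun i _ => H.ip_smul_right _ _ _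
      exact h3
    have h3 : Even (H.ip H.h H.h) := by
      rw [h2]
      refine Finset.even_sum _ fun i _ => ?_
      exact (Int.not_odd_iff_even.1 (hno i)).mul_left _
    rw [hH.h_self] at h3
    exact absurd h3 (by decide)
  obtain ⟨i0, hi0⟩ := hodd
  let c : Fin (Module.finrank ℤ H.hodge) → ℤ := fun i => if Odd (H.ip H.h (b i : Fin 23 → ℤ)) then 1 else 0
  let g' : Fin (Module.finrank ℤ H.hodge) → H.hodge := fun i => b i + c i • b i0
  let g : {i : Fin (Module.finrank ℤ H.hodge) // i ≠ i0} → Fin 23 → ℤ := fun i => (g' i.1 : Fin 23 → ℤ)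
  have hge : ∀ i, Even (H.ip H.h (g i)) := by
    intro i
    show Even (H.ip H.h ((b i.1 : Fin 23 → ℤ) + c i.1 • (b i0 : Fin 23 → ℤ)))
    rw [ip_add_right, ip_smul_right]
    by_cases ho : Odd (H.ip H.h (b i.1 : Fin 23 → ℤ))
    · have hc : c i.1 = 1 := if_pos ho
      rw [hc, one_mul]
      exact ho.add_odd hi0
    · have hc : c i.1 = 0 := if_neg ho
      rw [hc, zero_mul, add_zero]
      exact Int.not_odd_iff_even.1 ho
  refine hH.count (ι := {i : Fin (Module.finrank ℤ H.hodge) // i ≠ i0}) (κ := Fin (Module.finrank ℤ H.hodge))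
    ?_ (g := g) (f := fun i => (b i : Fin 23 → ℤ)) (fun i => (b i).2) ?_ ?_ ?_
  · rw [Fintype.card_subtype_compl, Fintype.card_fin, Fintype.card_subtype_eq, ← hr]
    omega
  · exact b.linearIndependent.map' H.hodge.subtype (Submodule.ker_subtype _)
  · intro j T hT
    have h1 := hbb T (g j) hT (g' j.1).2
    have h2 := hge j
    unfold bb at h1
    have h3 : Even (3 * H.ip T (g j)) := by
      have h4 : 3 * H.ip T (g j) = (3 * H.ip T (g j) - H.ip H.h T * H.ip H.h (g j)) +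
        H.ip H.h T * H.ip H.h (g j) := by ring
      rw [h4]
      exact h1.add (h2.mul_left _)
    rw [Int.even_iff] at h3 ⊢
    omega
  · rintro ε ⟨v, hv⟩ j
    have hvH : H.IsHodge v := by
      refine H.isHodge_of_smul two_ne_zero ?_
      rw [← hv]
      exact H.isHodge_sum _ _ fun i _ => H.isHodge_smul _ (g' i.1).2
    let v' : H.hodge := ⟨v, hvH⟩
    have h1 : ∑ i : {i : Fin (Module.finrank ℤ H.hodge) // i ≠ i0}, ε i • g' i.1 = (2 : ℤ) • v' := by
      apply Subtype.ext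
      rw [Submodule.coe_sum]
      exact hv
    have h2 := congrArg (fun y => b.repr y j.1) h1
    simp only [map_sum, map_smul, g', map_add, Finsupp.coe_finsetSum, Finset.sum_apply, Finsupp.smul_apply,
      Finsupp.add_apply, Module.Basis.repr_self, smul_eq_mul, Finsupp.single_apply] at h2
    rw [Finset.sum_eq_single j] at h2
    · rw [if_pos rfl, if_neg (fun h => j.2 h.symm)] at h2
      rw [Int.even_iff]
      omega
    · intro i _ hij
      rw [if_neg (fun h => hij (Subtype.ext h)), if_neg (fun h => j.2 h.symm)]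
      ring
    · intro h
      exact absurd (mem_univ _) h

end Pool.Agent.Helper63.EI
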